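import Pool.Agent.W295.PR.AsmC
import Pool.Agent.W349.PR.EV
import Pool.Agent.W486.PR.RFW
import Pool.Agent.W381.PR.LCS
import Pool.Agent.W349.PR.FILT
import Pool.Agent.W696.PR.PG
import Pool.Agent.W52.PR.COMP
import Pool.Agent.W903.PR.RAISE
import Pool.Agent.W52.PR.POW
import Pool.Agent.W688.PR.ZPOW
import Pool.Agent.W688.PR.BP
import Pool.Agent.W224.PR.NEWT
import Pool.Agent.W565.PR.T1
import Pool.Agent.W395.PR.WORD
import Pool.Agent.W922.PR.LSTEP
import Pool.Agent.W160.PR.PDEG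
import Pool.Agent.W766.PR.Unip
import Pool.Agent.W906.PR.PPN
import Pool.Agent.W32.PR.PPc
import Pool.Agent.W962.PR.PPBP
import Pool.Agent.W417.PR.QCH
import Pool.Agent.W589.PR.T2
import Pool.Agent.W479.PR.BUN
import Pool.Agent.W718.PR.CHN
import Pool.Agent.W417.PR.EL
import Pool.Agent.W918.PR.CH
import Pool.Agent.W155.PR.LT0
import Pool.Agent.W303.PR.LT1
import Pool.Agent.W446.PR.LT2
import Pool.Agent.W202.PR.LT3
import Pool.Agent.W54.PR.TOR
import Pool.Agent.W431.PR.LT6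
import Pool.Agent.W378.PR.PK
import Pool.Agent.W999.PR.MINP
import Pool.Agent.W538.PR.FIBKK
import Pool.Agent.W414.PR.BASE
import Pool.Agent.W249.PR.Step
import Pool.Agent.W648.PR.PARRY
import Pool.Agent.W91.PR.CD
import Pool.Agent.W863.PR.FIN1
import Pool.Agent.W554.PR.FIN2
import Pool.Agent.W191.PR.TRA1
import Pool.Agent.W63.PR.TRA2
import Pool.Agent.W410.PR.TRA3
import Pool.Agent.W196.PR.TRB
import Pool.Agent.W540.PR.LT5
import Pool.Agent.W800.PR.QQC

set_option autoImplicit false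

namespace Pool.Agent.W295.PR.Fin

open Pool.Agent.W295.PR

theorem ev : S_EV := Pool.Agent.W349.PR.EV.main
theorem rfw : S_RFW := Pool.Agent.W486.PR.RFW.main
theorem lcs_ : S_LCS := Pool.Agent.W381.PR.LCS.main
theorem filt : S_FILT := Pool.Agent.W349.PR.FILT.main lcs_
theorem pg : S_PG := Pool.Agent.W696.PR.PG.main
theorem comp : S_COMP := Pool.Agent.W52.PR.COMP.main
theorem raise : S_RAISE := Pool.Agent.W903.PR.RAISE.main pg comp
theorem pow : S_POW := Pool.Agent.W52.PR.POW.main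
theorem zpow : S_ZPOW := Pool.Agent.W688.PR.ZPOW.main
theorem bp : S_BP := Pool.Agent.W688.PR.BP.main pg filt zpow
theorem newt : S_NEWT := Pool.Agent.W224.PR.NEWT.main
theorem t1 : S_T1 := Pool.Agent.W565.PR.T1.main bp newt lcs_
theorem word : S_WORD := Pool.Agent.W395.PR.WORD.main
theorem lstep : S_Lstep := Pool.Agent.W922.PR.LSTEP.main bp t1 newt word lcs_
theorem lift : S_L := liftAll bp lstep
theorem pdeg : S_PDEG := Pool.Agent.W160.PR.PDEG.main
theorem unip : S_UNIP := Pool.Agent.W766.PR.Unip.main raise pg ev rfw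
theorem ppn : S_PPn := Pool.Agent.W906.PR.PPN.main ev
theorem ppc : S_PPc := Pool.Agent.W32.PR.PPc.main ev
theorem ppbp : S_PPbp := Pool.Agent.W962.PR.PPBP.main bp ev
theorem qch : S_QCH := Pool.Agent.W417.PR.QCH.main pg filt raise pow ev rfw
theorem t2 : S_T2 := Pool.Agent.W589.PR.T2.main
theorem bun : S_BUN := Pool.Agent.W479.PR.BUN.main t2
theorem chn : S_CHN := Pool.Agent.W718.PR.CHN.main lcs_
theorem el : S_EL := Pool.Agent.W417.PR.EL.main
theorem ch : S_CH := Pool.Agent.W918.PR.CH.main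
theorem lt0 : S_LT0 := Pool.Agent.W155.PR.LT0.main ppn ev
theorem lt1 : S_LT1 := Pool.Agent.W303.PR.LT1.main el
theorem lt2 : S_LT2 := Pool.Agent.W446.PR.LT2.main lt1 ppn ev
theorem lt3 : S_LT3 := Pool.Agent.W202.PR.LT3.main lt2 ppn ev
theorem tor : S_TOR := Pool.Agent.W54.PR.TOR.main newt ev
theorem lt6 : S_LT6 := Pool.Agent.W431.PR.LT6.main el lt2 ppn ev
theorem pk : S_PK := Pool.Agent.W378.PR.PK.main lift ppbp pdeg t2
theorem minP : S_MinP := Pool.Agent.W999.PR.MINP.main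
theorem fib : S_Fib := Pool.Agent.W538.PR.FIBKK.fib
theorem kk : S_KK := Pool.Agent.W538.PR.FIBKK.kk
theorem base : S_Base := Pool.Agent.W414.PR.BASE.main fib
theorem step : S_Step := Pool.Agent.W249.PR.Step.main ch
theorem parry : S_Parry := Pool.Agent.W648.PR.PARRY.main
theorem cd : S_CD := Pool.Agent.W91.PR.CD.main ev ppn
theorem fin1 : S_FIN1 := Pool.Agent.W863.PR.FIN1.main ppc ppn ev
theorem fin2 : S_FIN2 := Pool.Agent.W554.PR.FIN2.main fin1 ppn ev
theorem tra1 : S_TRA1 := Pool.Agent.W191.PR.TRA1.main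
theorem tra2 : S_TRA2 := Pool.Agent.W63.PR.TRA2.main
theorem tra3 : S_TRA3 := Pool.Agent.W410.PR.TRA3.main
theorem trb : S_TRB := Pool.Agent.W196.PR.TRB.main

theorem lt5 : S_LT5 := Pool.Agent.W540.PR.LT5.main lt1 lt3 tor ppn ppbp lcs_ ev
theorem qqc : S_QQc := Pool.Agent.W800.PR.QQC.main

/-- everything -/
theorem gen : S_GEN :=
  gen_all ev ppn ppc qch t2 bun chn lt0 lt5 lt6 pk unip minP kk base step parry qqc cd fin2
    tra1 tra2 tra3

end Pool.Agent.W295.PR.Fin
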