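import Pool.Agent.W295.PR.Stm

set_option autoImplicit false
set_option linter.all false

open Topology

namespace Pool.Agent.W295.PR

section
variable {G : Type} [Group G] [TopologicalSpace G] [IsTopologicalGroup G]

theorem Lam.one {N : Nil G} {D : ℕ} {lam : (RR D → G) → Circle} (h : Lam N D lam) : lam 1 = 1 := by
  have h1 := h.mul 1 (one_mem _) 1 (one_mem _)
  rw [mul_one] at h1
  exact (mul_eq_left.1 h1.symm)

theorem exists_lcs_bot (N : Nil G) : ∃ s, 1 ≤ s ∧ lcs G s = ⊥ := by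
  haveI := N.nil
  refine ⟨Group.nilpotencyClass G + 1, by omega, ?_⟩
  exact Subgroup.lowerCentralSeries_eq_bot_iff_nilpotencyClass_le.2 (Nat.le_succ _)

/-- all invariant functions have trivial `lam` -/
theorem lamMain (h5 : S_LT5) (h6 : S_LT6) (N : Nil G) (D : ℕ) (lam : (RR D → G) → Circle)
    (h : Lam N D lam) : ∀ f ∈ PP N D, lam f = 1 := by
  obtain ⟨s, hs1, hs⟩ := exists_lcs_bot N
  have key : ∀ k, k + 1 ≤ s → ∃ M : ℕ, 1 ≤ M ∧ ∀ f ∈ PP N D, (∀ q, f q ∈ lcs G (s - k)) →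
      lam f ^ M = 1 := by
    intro k
    induction k with
    | zero =>
      intro _
      refine ⟨1, le_refl _, fun f _ hq => ?_⟩
      have : f = 1 := by
        funext q
        have := hq q
        rw [Nat.sub_zero, hs] at this
        exact Subgroup.mem_bot.1 this
      rw [this, h.one, one_pow]
    | succ k ih =>
      intro hk
      have ih' := ih (by omega)
      have e : s - k = (s - (k + 1)) + 1 := by omega
      rw [e] at ih'
      exact h5 G N D lam h (s - (k + 1)) (by omega) ih'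
  have := key (s - 1) (by omega)
  have e : s - (s - 1) = 1 := by omega
  rw [e] at this
  exact h6 G N D lam h this

end

section
variable {G : Type} [Group G] [TopologicalSpace G] [IsTopologicalGroup G]

theorem sg_add (hEV : S_EV) (N : Nil G) {H : Subgroup G} (D : ℕ) (e f : ℤ) (y : RR D → G ⧸ H) :
    sg N D e (sg N D f y) = sg N D (e + f) y := by
  funext q
  simp only [sg]
  obtain ⟨h1, h2, -⟩ := hEV D e f q q
  obtain ⟨-, h2', -⟩ := hEV D f e q q
  rw [h2', smul_smul, ← zpow_add, h1, add_comm f e]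
  congr 2
  ring

theorem sg_zero (hEV : S_EV) (N : Nil G) {H : Subgroup G} (D : ℕ) (y : RR D → G ⧸ H) :
    sg N D 0 y = y := by
  funext q
  simp only [sg]
  obtain ⟨-, -, h3, -, -, -, -, h8⟩ := hEV D 0 0 q q
  rw [h3, h8, zpow_zero, one_smul]

theorem act_act {H : Subgroup G} {D : ℕ} (f g : RR D → G) (y : RR D → G ⧸ H) :
    act f (act g y) = act (f * g) y := by
  funext q
  simp only [act, Pi.mul_apply, smul_smul]

theorem act_one {H : Subgroup G} {D : ℕ} (y : RR D → G ⧸ H) : act 1 y = y := by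
  funext q
  simp [act]

theorem gpp_mem (N : Nil G) (D : ℕ) (e : ℤ) {u x v : G} (hu : u ∈ N.G0) (hx : x ∈ N.G0)
    (hv : v ∈ N.G0) : gpp N D e u x v ∈ PP N D :=
  Subgroup.subset_closure ⟨e, u, x, v, hu, hx, hv, rfl⟩

theorem act_continuous {H : Subgroup G} {D : ℕ} (f : RR D → G) :
    Continuous (act f : (RR D → G ⧸ H) → RR D → G ⧸ H) := by
  refine continuous_pi fun q => ?_
  exact (continuous_const_smul (f q)).comp (continuous_apply q)

theorem sg_continuous (N : Nil G) {H : Subgroup G} (D : ℕ) (e : ℤ) :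
    Continuous (sg N D e : (RR D → G ⧸ H) → RR D → G ⧸ H) := by
  refine continuous_pi fun q => ?_
  exact (continuous_const_smul (N.a ^ (ev D e q))).comp (continuous_apply (tau D e q))

theorem sg_act (N : Nil G) {H : Subgroup G} (D : ℕ) (e : ℤ) (f : RR D → G) (y : RR D → G ⧸ H) :
    sg N D e (act f y) = act (cj N D e f) (sg N D e y) := by
  funext q
  simp only [sg, act, cj, smul_smul]
  congr 1
  group

theorem smul_one_eq {H : Subgroup G} {x y : G} (h : x⁻¹ * y ∈ H) :
    x • ((1 : G) : G ⧸ H) = y • ((1 : G) : G ⧸ H) := by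
  rw [MulAction.Quotient.smul_coe, MulAction.Quotient.smul_coe, smul_eq_mul, smul_eq_mul, mul_one,
    mul_one]
  exact QuotientGroup.eq.2 h

theorem sg_w0 (N : Nil G) {H : Subgroup G} (hH : N.Γ ≤ H) (D : ℕ) (e : ℤ) :
    sg N D e (w0 H D) = act (gpp N D e 1 1 N.g0⁻¹) (w0 H D) := by
  funext q
  simp only [sg, act, w0, gpp, one_mul, mul_one]
  refine smul_one_eq ?_
  rw [inv_mul_cancel_left]
  exact inv_mem (zpow_mem (hH N.gam_mem) _)

theorem a_w0 (hEV : S_EV) (N : Nil G) {H : Subgroup G} (hH : N.Γ ≤ H) (D : ℕ) :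
    (fun q => N.a • w0 H D q) = act (gpp N D 0 1 N.g0 1) (w0 H D) := by
  funext q
  simp only [act, w0, gpp, one_mul]
  obtain ⟨-, -, -, -, -, -, -, h8⟩ := hEV D 0 0 q q
  rw [h8, zpow_zero, inv_one, one_mul, mul_one]
  refine smul_one_eq ?_
  have h : (N.a⁻¹ * N.g0) = (N.g0⁻¹ * N.a)⁻¹ := by group
  rw [h]
  exact inv_mem (hH N.gam_mem)

/-- invariance of a closure of an orbit -/
theorem om_maps {D : ℕ} (N : Nil G) {H : Subgroup G} (Φ : (RR D → G ⧸ H) → (RR D → G ⧸ H))
    (hΦ : Continuous Φ) (h : ∀ f ∈ PP N D, Φ (act f (w0 H D)) ∈ Om N H D) :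
    ∀ y ∈ Om N H D, Φ y ∈ Om N H D := by
  intro y hy
  have h1 : Om N H D ⊆ Φ ⁻¹' Om N H D := by
    refine closure_minimal ?_ (isClosed_closure.preimage hΦ)
    rintro y ⟨f, hf, rfl⟩
    exact h f hf
  exact h1 hy

theorem om_act {D : ℕ} (N : Nil G) {H : Subgroup G} (g : RR D → G) (hg : g ∈ PP N D) :
    ∀ y ∈ Om N H D, act g y ∈ Om N H D := by
  refine om_maps N _ (act_continuous g) fun f hf => ?_
  rw [act_act]
  exact subset_closure ⟨g * f, mul_mem hg hf, rfl⟩

theorem om_sg (hP : S_PPn) (N : Nil G) {H : Subgroup G} (hH : N.Γ ≤ H) (D : ℕ) (e : ℤ) :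
    ∀ y ∈ Om N H D, sg N D e y ∈ Om N H D := by
  refine om_maps N _ (sg_continuous N D e) fun f hf => ?_
  rw [sg_act, sg_w0 N hH, act_act]
  exact subset_closure ⟨_, mul_mem ((hP G N D).1 e f hf)
    (gpp_mem N D e (one_mem _) (one_mem _) (inv_mem N.g0_mem)), rfl⟩

theorem om_a (hP : S_PPn) (hEV : S_EV) (N : Nil G) {H : Subgroup G} (hH : N.Γ ≤ H) (D : ℕ) :
    ∀ y ∈ Om N H D, (fun q => N.a • y q) ∈ Om N H D := by
  refine om_maps N _ (continuous_pi fun q => (continuous_const_smul N.a).comp (continuous_apply q))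
    fun f hf => ?_
  have e : (fun q => N.a • act f (w0 H D) q) =
      act (fun q => N.a * f q * N.a⁻¹) (act (gpp N D 0 1 N.g0 1) (w0 H D)) := by
    rw [← a_w0 hEV N hH]
    funext q
    simp only [act, smul_smul]
    congr 1
    group
  rw [e, act_act]
  exact subset_closure ⟨_, mul_mem ((hP G N D).2.1 f hf)
    (gpp_mem N D 0 (one_mem _) N.g0_mem (one_mem _)), rfl⟩

theorem om_a' (hP : S_PPn) (hEV : S_EV) (N : Nil G) {H : Subgroup G} (hH : N.Γ ≤ H) (D : ℕ) :
    ∀ y ∈ Om N H D, (fun q => N.a⁻¹ • y q) ∈ Om N H D := by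
  refine om_maps N _ (continuous_pi fun q => (continuous_const_smul N.a⁻¹).comp
    (continuous_apply q)) fun f hf => ?_
  have h1 : w0 H D = (fun q => N.a⁻¹ • (act (gpp N D 0 1 N.g0 1) (w0 H D)) q) := by
    rw [← a_w0 hEV N hH]
    funext q
    simp
  have h2 : (fun q => N.a⁻¹ • w0 H D q) =
      act (fun q => N.a⁻¹ * (gpp N D 0 1 N.g0 1)⁻¹ q * N.a) (w0 H D) := by
    have h3 : (w0 H D) = act (gpp N D 0 1 N.g0 1)⁻¹ (fun q => N.a • w0 H D q) := by
      rw [a_w0 hEV N hH, act_act, inv_mul_cancel, act_one]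
    conv_lhs => rw [h3]
    funext q
    simp only [act, smul_smul]
    congr 1
    rw [mul_assoc]
  have e : (fun q => N.a⁻¹ • act f (w0 H D) q) =
      act (fun q => N.a⁻¹ * f q * N.a) (fun q => N.a⁻¹ • w0 H D q) := by
    funext q
    simp only [act, smul_smul]
    congr 1
    group
  rw [e, h2, act_act]
  refine subset_closure ⟨_, mul_mem ((hP G N D).2.2.1 f hf) ?_, rfl⟩
  exact (hP G N D).2.2.1 _ (inv_mem (gpp_mem N D 0 (one_mem _) N.g0_mem (one_mem _)))

end

end Pool.Agent.W295.PR
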