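import Pool.Agent.W295.PR.AsmA

set_option autoImplicit false
set_option linter.all false

open Topology

namespace Pool.Agent.W295.PR

/-! ## abstract assembly: from the pieces to `MinT` of the abstract system -/

section
variable {Y C P : Type} [TopologicalSpace Y] [CommGroup C] [TopologicalSpace C]
  [Group P] [TopologicalSpace P] [IsTopologicalGroup P] [CompactSpace Y] [T2Space Y]
  [IsTopologicalGroup C] [CompactSpace C] [T2Space C]

namespace Dyn
variable (E : Dyn Y C P)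

theorem θ_one : E.θ 1 = 1 := by
  have := E.θ_mul 1 1
  rw [mul_one] at this
  exact (mul_eq_left.1 this.symm)

theorem θ_inv (c : C) : E.θ c⁻¹ = (E.θ c)⁻¹ := by
  rw [eq_inv_iff_mul_eq_one, ← E.θ_mul, inv_mul_cancel, E.θ_one]

/-- `c ↦ θ c / c` -/
def Dm : Monoid.End C where
  toFun c := E.θ c * c⁻¹
  map_one' := by rw [E.θ_one, inv_one, mul_one]
  map_mul' a b := by
    show E.θ (a * b) * (a * b)⁻¹ = (E.θ a * a⁻¹) * (E.θ b * b⁻¹)
    rw [E.θ_mul, mul_inv]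
    exact mul_mul_mul_comm _ _ _ _

theorem Dm_apply (c : C) : E.Dm c = E.θ c * c⁻¹ := rfl

theorem Dm_cont : Continuous E.Dm := E.θ_cont.mul continuous_inv

theorem Dm_θ (c : C) : E.Dm (E.θ c) = E.θ (E.Dm c) := by
  rw [Dm_apply, Dm_apply, E.θ_mul, E.θ_inv]

theorem it_mul (j : ℕ) (a b : C) : (E.Dm)^[j] (a * b) = (E.Dm)^[j] a * (E.Dm)^[j] b := by
  induction j generalizing a b with
  | zero => rfl
  | succ j ih => simp only [Function.iterate_succ_apply, map_mul, ih]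

theorem it_one (j : ℕ) : (E.Dm)^[j] 1 = 1 := by
  induction j with
  | zero => rfl
  | succ j ih => simp only [Function.iterate_succ_apply, map_one, ih]

theorem it_inv (j : ℕ) (a : C) : (E.Dm)^[j] a⁻¹ = ((E.Dm)^[j] a)⁻¹ := by
  rw [eq_inv_iff_mul_eq_one, ← E.it_mul, inv_mul_cancel, E.it_one]

/-- the chain of subgroups `K_j` -/
def Kj (K : Subgroup C) (j : ℕ) : Subgroup C where
  carrier := {c | c ∈ K ∧ (E.Dm)^[j] c = 1}
  one_mem' := ⟨one_mem _, E.it_one j⟩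
  mul_mem' := by
    rintro a b ⟨ha, ha'⟩ ⟨hb, hb'⟩
    exact ⟨mul_mem ha hb, by rw [E.it_mul, ha', hb', mul_one]⟩
  inv_mem' := by
    rintro a ⟨ha, ha'⟩
    exact ⟨inv_mem ha, by rw [E.it_inv, ha', inv_one]⟩

theorem mem_Kj (K : Subgroup C) (j : ℕ) (c : C) :
    c ∈ E.Kj K j ↔ c ∈ K ∧ (E.Dm)^[j] c = 1 := Iff.rfl

theorem Kj_closed (K : Subgroup C) (hK : IsClosed (K : Set C)) (j : ℕ) :
    IsClosed (E.Kj K j : Set C) := by
  have : (E.Kj K j : Set C) = (K : Set C) ∩ {c | (E.Dm)^[j] c = 1} := by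
    ext c
    exact E.mem_Kj K j c
  rw [this]
  refine hK.inter ?_
  exact isClosed_singleton.preimage (E.Dm_cont.iterate j)

theorem Kj_le (K : Subgroup C) (j : ℕ) : E.Kj K j ≤ K := fun _ h => h.1

theorem Kj_mono (K : Subgroup C) (j : ℕ) : E.Kj K j ≤ E.Kj K (j + 1) := by
  intro c hc
  rw [mem_Kj] at hc ⊢
  refine ⟨hc.1, ?_⟩
  rw [Function.iterate_succ_apply', hc.2]
  exact map_one E.Dm

theorem Kj_θ (K : Subgroup C) (h : ∀ c ∈ K, E.θ c ∈ K) (j : ℕ) (c : C) (hc : c ∈ E.Kj K (j + 1)) :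
    E.θ c * c⁻¹ ∈ E.Kj K j := by
  rw [mem_Kj] at hc ⊢
  refine ⟨mul_mem (h c hc.1) (inv_mem hc.1), ?_⟩
  have := hc.2
  rw [Function.iterate_succ_apply] at this
  exact this

theorem Dm_iter_θ (j : ℕ) (c : C) : (E.Dm)^[j] (E.θ c) = E.θ ((E.Dm)^[j] c) := by
  induction j generalizing c with
  | zero => rfl
  | succ j ih => rw [Function.iterate_succ_apply, Function.iterate_succ_apply, E.Dm_θ, ih]

theorem Kj_θ' (K : Subgroup C) (h : ∀ c ∈ K, E.θ' c ∈ K) (j : ℕ) (c : C)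
    (hc : c ∈ E.Kj K (j + 1)) : E.θ' c * c⁻¹ ∈ E.Kj K j := by
  rw [mem_Kj] at hc ⊢
  refine ⟨mul_mem (h c hc.1) (inv_mem hc.1), ?_⟩
  have h1 : E.θ (E.θ' c * c⁻¹) = (E.Dm c)⁻¹ := by
    rw [E.θ_mul, E.θ_θ', E.θ_inv, Dm_apply, mul_inv, inv_inv, mul_comm]
  have h2 : E.θ ((E.Dm)^[j] (E.θ' c * c⁻¹)) = 1 := by
    rw [← E.Dm_iter_θ, h1]
    rw [E.it_inv, ← Function.iterate_succ_apply, hc.2, inv_one]
  have h4 := congrArg E.θ' h2
  rw [E.θ'_θ] at h4
  rw [h4]
  have h5 := E.θ'_θ 1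
  rwa [E.θ_one] at h5

end Dyn

/-- the abstract step -/
theorem absStep (hKK : S_KK) (hStep : S_Step) (hParry : S_Parry) (hQQ : S_QQc)
    (E : Dyn Y C P) (hInv : E.InvTS E.Om) (hMinP : E.MinP)
    (hBase : ∀ K : Subgroup C, (K : Set C) = E.KK → E.MinMod K)
    (hUni : ∃ J, ∀ c, E.ac c E.w ∈ E.Om → (E.Dm)^[J] c = 1)
    (hconn : IsPreconnected (Set.univ : Set P)) (ht : E.t 1 = 1) (hs : E.s 1 = 1)
    (hQ : ∃ J, E.QQ J = ⊥)
    (hlam : ∀ (φ : Y → Circle) (lam : P → Circle), ContinuousOn φ E.Om →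
      (∀ y ∈ E.Om, φ (E.T y) = φ y ∧ φ (E.S y) = φ y) →
      (∀ g, ∀ y ∈ E.Om, φ (E.ap g y) = lam g * φ y) → ∀ g, lam g = 1) : E.MinT := by
  obtain ⟨K, hK, hKc, hKθ, hKθ'⟩ := hKK Y C P E hInv
  obtain ⟨J, hJ⟩ := hUni
  have hw : E.w ∈ E.Om := by
    refine subset_closure ⟨1, E.ap_one _⟩
  have hKJ : E.Kj K J = K := by
    refine le_antisymm (E.Kj_le K J) fun c hc => ?_
    rw [Dyn.mem_Kj]
    refine ⟨hc, hJ c ?_⟩
    have hc' : c ∈ E.KK := by rw [← hK]; exact hc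
    exact (hc' E.w).1 hw
  have hsub : ∀ j, (E.Kj K j : Set C) ⊆ E.KK := by
    intro j c hc
    rw [← hK]
    exact E.Kj_le K j hc
  have key : ∀ i, i ≤ J → E.MinMod (E.Kj K (J - i)) := by
    intro i
    induction i with
    | zero =>
      intro _
      rw [Nat.sub_zero, hKJ]
      exact hBase K hK
    | succ i ih =>
      intro hi
      have ih' := ih (by omega)
      have e : J - i = (J - (i + 1)) + 1 := by omega
      rw [e] at ih'
      refine hStep Y C P E hInv (E.Kj K (J - (i + 1))) (E.Kj K (J - (i + 1) + 1))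
        (E.Kj_closed K hKc _) (E.Kj_closed K hKc _) (E.Kj_mono K _) (hsub _)
        (fun c hc => E.Kj_θ K hKθ _ c hc) (fun c hc => E.Kj_θ' K hKθ' _ c hc) ih' ?_
      intro χ φ hobs
      obtain ⟨lam, hl⟩ := hParry Y C P E hInv _ (hsub _) ih' χ φ hobs
        (hQQ Y C P E hconn ht hs) hQ
      have hl1 := hlam φ lam hobs.2.2.1 hobs.2.2.2.2 hl
      obtain ⟨c, hc, hc1⟩ := hobs.2.1
      apply hc1
      have hFc : IsClosed {y | y ∈ E.Om ∧ φ y = φ E.w} := by
        have := hobs.2.2.1.preimage_isClosed_of_isClosed (isClosed_closure : IsClosed E.Om)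
          (isClosed_singleton : IsClosed ({φ E.w} : Set Circle))
        exact this
      have hF := hMinP {y | y ∈ E.Om ∧ φ y = φ E.w} (fun y hy => hy.1) hFc ⟨E.w, hw, rfl⟩ (by
        rintro g y ⟨hy, hy2⟩
        refine ⟨?_, ?_⟩
        · have hcont : Continuous (E.ap g) :=
            E.ap_cont.comp (Continuous.prodMk continuous_const continuous_id)
          have h1 : E.Om ⊆ E.ap g ⁻¹' E.Om := by
            refine closure_minimal ?_ (isClosed_closure.preimage hcont)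
            rintro _ ⟨h, rfl⟩
            exact subset_closure ⟨g * h, E.ap_mul g h E.w⟩
          exact h1 hy
        · rw [hl g y hy, hl1, one_mul, hy2])
      have hc2 : E.ac c E.w ∈ E.Om := ((hsub _ hc) E.w).1 hw
      rw [← hF] at hc2
      have h3 := hc2.2
      rw [hobs.2.2.2.1 c hc E.w hw] at h3
      exact mul_eq_right.1 h3
  have h0 := key J le_rfl
  rw [Nat.sub_self] at h0
  intro F hF hFc hFn hFi
  refine h0 F hF hFc hFn hFi ?_
  intro c hc y hy
  rw [Dyn.mem_Kj] at hc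
  have : c = 1 := hc.2
  rw [this, E.ac_one]
  exact hy

end

end Pool.Agent.W295.PR
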