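import Pool.Agent.W295.PR.AsmB

set_option autoImplicit false
set_option linter.all false

open Topology

namespace Pool.Agent.W295.PR

section
variable {G : Type} [Group G] [TopologicalSpace G] [IsTopologicalGroup G]

/-- projection `G ⧸ H → G ⧸ H'` -/
def prj {H H' : Subgroup G} (h : H ≤ H') : G ⧸ H → G ⧸ H' := Subgroup.quotientMapOfLE h

theorem prj_mk {H H' : Subgroup G} (h : H ≤ H') (g : G) : prj h (g : G ⧸ H) = (g : G ⧸ H') := rfl

theorem prj_cont {H H' : Subgroup G} (h : H ≤ H') : Continuous (prj h) := by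
  refine (QuotientGroup.isOpenQuotientMap_mk (N := H)).isQuotientMap.continuous_iff.2 ?_
  exact QuotientGroup.continuous_mk

theorem prj_smul {H H' : Subgroup G} (h : H ≤ H') (g : G) (x : G ⧸ H) :
    prj h (g • x) = g • prj h x := by
  obtain ⟨x, rfl⟩ := QuotientGroup.mk_surjective x
  rfl

/-- the map `QQ n → qch n` -/
theorem qq_map {H : Subgroup G} {C : Type} [CommGroup C] [TopologicalSpace C] (N : Nil G) (D : ℕ)
    (E : Dyn (RR D → G ⧸ H) (RR D → C) (PP N D))
    (ht : ∀ g, (E.t g : RR D → G) = fun q => N.a⁻¹ * (g : RR D → G) q * N.a)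
    (hs : ∀ g, (E.s g : RR D → G) = cj N D (-1) (g : RR D → G)) (n : ℕ) :
    (E.QQ n).map (PP N D).subtype = qch N D n := by
  induction n with
  | zero =>
    show (⊤ : Subgroup (PP N D)).map (PP N D).subtype = PP N D
    rw [← MonoidHom.range_eq_map, Subgroup.range_subtype]
  | succ n ih =>
    show (Subgroup.closure _).map _ = Subgroup.closure _
    rw [MonoidHom.map_closure]
    congr 1
    rw [← ih]
    ext x
    constructor
    · rintro ⟨y, (⟨g, hg, rfl⟩ | ⟨g, hg, rfl⟩), rfl⟩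
      · left
        refine ⟨(g : RR D → G), ⟨g, hg, rfl⟩, ?_⟩
        simp only [Subgroup.coe_subtype, Subgroup.coe_mul, Subgroup.coe_inv, ht]
      · right
        refine ⟨(g : RR D → G), ⟨g, hg, rfl⟩, ?_⟩
        simp only [Subgroup.coe_subtype, Subgroup.coe_mul, Subgroup.coe_inv, hs]
    · rintro (⟨_, ⟨g, hg, rfl⟩, rfl⟩ | ⟨_, ⟨g, hg, rfl⟩, rfl⟩)
      · refine ⟨E.t g * g⁻¹, Or.inl ⟨g, hg, rfl⟩, ?_⟩
        simp only [Subgroup.coe_subtype, Subgroup.coe_mul, Subgroup.coe_inv, ht]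
      · refine ⟨E.s g * g⁻¹, Or.inr ⟨g, hg, rfl⟩, ?_⟩
        simp only [Subgroup.coe_subtype, Subgroup.coe_mul, Subgroup.coe_inv, hs]

theorem levelStep (hEV : S_EV) (hPPn : S_PPn) (hPPc : S_PPc) (hQCH : S_QCH) (hT2 : S_T2)
    (hBUN : S_BUN) (hLT0 : S_LT0) (hLT5 : S_LT5) (hLT6 : S_LT6) (hPK : S_PK) (hUN : S_UNIP)
    (hMinP : S_MinP) (hKK : S_KK) (hBase : S_Base) (hStep : S_Step) (hParry : S_Parry)
    (hQQ : S_QQc) (hCD : S_CD)
    (N : Nil G) (D : ℕ) (H H' : Subgroup G) (hH : IsClosed (H : Set G))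
    (hH' : IsClosed (H' : Set G)) (hΓ : N.Γ ≤ H) (hHH : H ≤ H')
    (hcomm : ∀ x ∈ H', ∀ y ∈ H', x * y * x⁻¹ * y⁻¹ ∈ H) (hcomp : CompactSpace (G ⧸ H))
    (hP' : MinP N H' D) (hT' : MinT N H' D) : MinP N H D ∧ MinT N H D := by
  obtain ⟨C, iC, tC, gC, cC, sC, ⟨B⟩⟩ := hBUN G H H' hH hH' hHH hcomm hcomp
  obtain ⟨E, eap, eac, eT, eT', eS, eS', eθ, eθ', et, es, ew⟩ := hCD G N D H H' C B
  haveI : T2Space (G ⧸ H) := hT2 G H hH
  haveI : T2Space (G ⧸ H') := hT2 G H' hH'
  have eOm : E.Om = Om N H D := by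
    unfold Dyn.Om Om
    congr 1
    ext y
    constructor
    · rintro ⟨g, rfl⟩
      exact ⟨g, g.2, by rw [← ew, ← eap]⟩
    · rintro ⟨f, hf, rfl⟩
      exact ⟨⟨f, hf⟩, by show E.ap _ _ = _; rw [eap, ew]⟩
  let π : (RR D → G ⧸ H) → (RR D → G ⧸ H') := fun y q => prj hHH (y q)
  let ap' : (PP N D) → (RR D → G ⧸ H') → (RR D → G ⧸ H') := fun g y => act (g : RR D → G) y
  have πc : Continuous π := continuous_pi fun q => (prj_cont hHH).comp (continuous_apply q)
  have πap : ∀ g y, π (E.ap g y) = ap' g (π y) := by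
    intro g y
    rw [eap]
    funext q
    exact prj_smul hHH _ _
  have πw : π E.w = w0 H' D := by
    rw [ew]
    rfl
  have fib : ∀ y y', π y = π y' → ∃ c, y' = E.ac c y := by
    intro y y' h
    have : ∀ q, ∃ c : C, y' q = B.ra c (y q) := by
      intro q
      have hq := congrFun h q
      obtain ⟨g, hg⟩ := QuotientGroup.mk_surjective (y q)
      obtain ⟨g', hg'⟩ := QuotientGroup.mk_surjective (y' q)
      have h1 : (g : G ⧸ H') = (g' : G ⧸ H') := by
        have : prj hHH (y q) = prj hHH (y' q) := hq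
        rw [← hg, ← hg', prj_mk, prj_mk] at this
        exact this
      have h2 : g⁻¹ * g' ∈ H' := QuotientGroup.eq.1 h1
      refine ⟨B.pr ⟨g⁻¹ * g', h2⟩, ?_⟩
      rw [← hg, B.ra_mk, ← hg']
      simp
    choose c hc using this
    refine ⟨c, ?_⟩
    rw [eac]
    funext q
    exact hc q
  have eOm' : closure (Set.range fun g : PP N D => ap' g (π E.w)) = Om N H' D := by
    unfold Om
    congr 1
    ext y
    constructor
    · rintro ⟨g, rfl⟩
      exact ⟨g, g.2, by rw [← πw]⟩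
    · rintro ⟨f, hf, rfl⟩
      exact ⟨⟨f, hf⟩, by rw [πw]⟩
  have mP : E.MinP := by
    refine hMinP _ _ _ E _ ap' π πc πap fib ?_
    rw [eOm']
    intro F hF hFc hFn hFi
    exact hP' F hF hFc hFn fun f hf y hy => hFi ⟨f, hf⟩ y hy
  have hInv : E.InvTS E.Om := by
    rw [eOm]
    intro y hy
    rw [eT, eT', eS, eS']
    exact ⟨om_a hPPn hEV N hΓ D y hy, om_a' hPPn hEV N hΓ D y hy, om_sg hPPn N hΓ D 1 y hy,
      om_sg hPPn N hΓ D (-1) y hy⟩
  have hB : ∀ K : Subgroup (RR D → C), (K : Set (RR D → C)) = E.KK → E.MinMod K := by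
    refine hBase _ _ _ E _ ap' (fun y q => N.a • y q) (fun y q => N.a⁻¹ • y q) (sg N D 1)
      (sg N D (-1)) π πc πap ?_ ?_ ?_ ?_ fib ?_ mP
    · intro y
      rw [eT]
      funext q
      exact prj_smul hHH _ _
    · intro y
      rw [eT']
      funext q
      exact prj_smul hHH _ _
    · intro y
      rw [eS]
      funext q
      exact prj_smul hHH _ _
    · intro y
      rw [eS']
      funext q
      exact prj_smul hHH _ _
    · rw [eOm']
      intro F hF hFc hFn hFi
      exact hT' F hF hFc hFn (fun y hy => (hFi y hy).1) (fun y hy => (hFi y hy).2.1)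
        (fun y hy => (hFi y hy).2.2.1) (fun y hy => (hFi y hy).2.2.2)
  have eDm : (E.Dm : (RR D → C) → (RR D → C)) =
      fun f : RR D → C => fun q => f (tau D 1 q) * (f q)⁻¹ := by
    funext c q
    rw [Dyn.Dm_apply, eθ]
    rfl
  have hUni : ∃ J, ∀ c, E.ac c E.w ∈ E.Om → (E.Dm)^[J] c = 1 := by
    obtain ⟨d, hd⟩ := hPK G N D H H' C B hH hH' hΓ hHH
    obtain ⟨J, hJ⟩ := hUN D d
    refine ⟨J, fun c hc => ?_⟩
    rw [eDm]
    refine hJ C c (hd c ?_)
    rw [eac, ew, eOm] at hc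
    exact hc
  have mT : E.MinT := by
    refine absStep hKK hStep hParry hQQ E hInv mP hB hUni ?_ ?_ ?_ ?_ ?_
    · haveI : PreconnectedSpace (PP N D : Set (RR D → G)) :=
        isPreconnected_iff_preconnectedSpace.1 (hPPc G N D)
      exact isPreconnected_univ
    · apply Subtype.ext
      rw [et]
      funext q
      simp
    · apply Subtype.ext
      rw [es]
      funext q
      simp [cj]
    · obtain ⟨J, hJ⟩ := hQCH G N D
      refine ⟨J, ?_⟩
      have := qq_map N D E et es J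
      rw [hJ, Subgroup.map_eq_bot_iff_of_injective _ (Subgroup.subtype_injective _)] at this
      exact this
    · classical
      intro φ lam hφ hφi hl
      let lam' : (RR D → G) → Circle := fun f => if h : f ∈ PP N D then lam ⟨f, h⟩ else 1
      have hdata : LamData N D H φ lam' := by
        refine ⟨?_, ?_, ?_, ?_⟩
        · rw [← eOm]
          exact hφ
        · intro y hy
          rw [← eOm] at hy
          rw [← eT]
          exact (hφi y hy).1
        · intro y hy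
          rw [← eOm] at hy
          rw [← eS]
          exact (hφi y hy).2
        · intro f hf y hy
          rw [← eOm] at hy
          have h1 : lam' f = lam ⟨f, hf⟩ := dif_pos hf
          rw [h1, ← hl ⟨f, hf⟩ y hy, eap]
      have hL := hLT0 G N D H hH hΓ φ lam' hdata
      have h1 := lamMain hLT5 hLT6 N D lam' hL
      intro g
      have h2 := h1 (g : RR D → G) g.2
      have h3 : lam' (g : RR D → G) = lam g := dif_pos g.2
      rw [← h3, h2]
  constructor
  · intro F hF hFc hFn hFi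
    rw [← eOm]
    rw [← eOm] at hF
    refine mP F hF hFc hFn fun g y hy => ?_
    rw [eap]
    exact hFi _ g.2 y hy
  · intro F hF hFc hFn h1 h2 h3 h4
    rw [← eOm]
    rw [← eOm] at hF
    refine mT F hF hFc hFn fun y hy => ?_
    rw [eT, eT', eS, eS']
    exact ⟨h1 y hy, h2 y hy, h3 y hy, h4 y hy⟩

/-- minimality of `⟨a, σ⟩` on `Ω_Γ` -/
theorem minT_all (hEV : S_EV) (hPPn : S_PPn) (hPPc : S_PPc) (hQCH : S_QCH) (hT2 : S_T2)
    (hBUN : S_BUN) (hCHN : S_CHN) (hLT0 : S_LT0) (hLT5 : S_LT5) (hLT6 : S_LT6) (hPK : S_PK)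
    (hUN : S_UNIP) (hMinP : S_MinP) (hKK : S_KK) (hBase : S_Base) (hStep : S_Step)
    (hParry : S_Parry) (hQQ : S_QQc) (hCD : S_CD) (N : Nil G) (D : ℕ) : MinT N N.Γ D := by
  obtain ⟨c0, cc, cΓ, cm, ⟨s, hs⟩, ccom, ccomp⟩ := hCHN G N
  have key : ∀ i, MinP N (HH N i) D ∧ MinT N (HH N i) D := by
    intro i
    induction i with
    | zero =>
      haveI : Subsingleton (G ⧸ HH N 0) := by
        rw [c0]
        exact QuotientGroup.subsingleton_quotient_top
      haveI : Subsingleton (RR D → G ⧸ HH N 0) := inferInstance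
      constructor
      · intro F hF _ hFn _
        refine le_antisymm hF fun y _ => ?_
        obtain ⟨z, hz⟩ := hFn
        rwa [Subsingleton.elim y z]
      · intro F hF _ hFn _ _ _ _
        refine le_antisymm hF fun y _ => ?_
        obtain ⟨z, hz⟩ := hFn
        rwa [Subsingleton.elim y z]
    | succ i ih =>
      exact levelStep hEV hPPn hPPc hQCH hT2 hBUN hLT0 hLT5 hLT6 hPK hUN hMinP hKK hBase hStep
        hParry hQQ hCD N D (HH N (i + 1)) (HH N i) (cc _) (cc _) (cΓ _) (cm i)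
        (ccom i) (ccomp _) ih.1 ih.2
  have := (key s).2
  rw [hs] at this
  exact this

end

/-- the general theorem from the pieces -/
theorem gen_all (hEV : S_EV) (hPPn : S_PPn) (hPPc : S_PPc) (hQCH : S_QCH) (hT2 : S_T2)
    (hBUN : S_BUN) (hCHN : S_CHN) (hLT0 : S_LT0) (hLT5 : S_LT5) (hLT6 : S_LT6) (hPK : S_PK)
    (hUN : S_UNIP) (hMinP : S_MinP) (hKK : S_KK) (hBase : S_Base) (hStep : S_Step)
    (hParry : S_Parry) (hQQ : S_QQc) (hCD : S_CD) (hFIN2 : S_FIN2) (hTRA1 : S_TRA1)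
    (hTRA2 : S_TRA2) (hTRA3 : S_TRA3) : S_GEN := by
  have hmain : S_MAIN := hFIN2 fun G _ _ _ N D => minT_all hEV hPPn hPPc hQCH hT2 hBUN hCHN hLT0
    hLT5 hLT6 hPK hUN hMinP hKK hBase hStep hParry hQQ hCD N D
  intro G _ _ _ _ _ _ Γ hΓ hc g hg d p hp k hk j _ U hU hUn
  classical
  obtain ⟨D, q, hq⟩ := hTRA3 d p hp
  obtain ⟨n, hn, x, hx, h⟩ := hTRA2 hmain hTRA1 G Γ hΓ hc g hg D k j hk
    (Finset.univ.image q) U hU hUn
  refine ⟨n, hn, x, hx, fun i => ?_⟩
  rw [hq]
  exact h _ (Finset.mem_image_of_mem _ (Finset.mem_univ i))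

/-- the lifting lemma from its step -/
theorem liftAll (hBP : S_BP) (h : S_Lstep) : S_L := by
  intro D G _ _ _ H N i hN
  induction i with
  | zero =>
    refine ⟨1, le_rfl, fun V hV F => ⟨Set.univ, Filter.univ_mem, ∅, fun g _ _ => ?_⟩⟩
    refine ⟨fun _ => 1, (hBP (RR D) G 1 le_rfl).2.2.2.2 1, fun _ => one_mem _, fun q _ => ?_⟩
    refine ⟨1, mem_of_mem_nhds hV, g q, ?_, ?_⟩
    · exact Subgroup.mem_top _
    · simp
  | succ i ih => exact h D G H N i hN ih

end Pool.Agent.W295.PR
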