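import Mathlib

/-!
# Project PR (MP_35c333_an, frozen S04319): polynomial recurrence along progressions
in totally minimal nilsystems.  Definitions.  (helper295)
-/

set_option autoImplicit false

namespace Pool.Agent.W295.PR

/-- index group: `q : Fin D → ℤ` stands for the polynomial `∑ l, q l * n ^ (l+1)` -/
abbrev RR (D : ℕ) := Fin D → ℤ

/-- value of the polynomial `q` at `e` -/
def ev (D : ℕ) (e : ℤ) (q : RR D) : ℤ := ∑ l, q l * e ^ ((l : ℕ) + 1)

/-- `tau D e q` is the polynomial `q (n + e) - q e` -/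
def tau (D : ℕ) (e : ℤ) (q : RR D) : RR D :=
  fun j => ∑ l : Fin D, q l * ((Nat.choose ((l : ℕ) + 1) ((j : ℕ) + 1) : ℕ) : ℤ) * e ^ ((l : ℕ) - (j : ℕ))

/-- `rho D r q` is the polynomial `q (r n)` -/
def rho (D : ℕ) (r : ℤ) (q : RR D) : RR D := fun l => r ^ ((l : ℕ) + 1) * q l

/-- The setting: a nilpotent topological group `G = G0 ⟨a⟩` with `G0` open, normal, connected,
`Γ` a closed cocompact subgroup, `G0` transitive on `G ⧸ Γ`, and `a` acts minimally. -/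
structure Nil (G : Type) [Group G] [TopologicalSpace G] [IsTopologicalGroup G] where
  a : G
  g0 : G
  G0 : Subgroup G
  Γ : Subgroup G
  nil : Group.IsNilpotent G
  t2 : T2Space G
  normal : G0.Normal
  isOpen : IsOpen (G0 : Set G)
  conn : IsPreconnected (G0 : Set G)
  gen : ∀ g : G, ∃ i : ℤ, ∃ u ∈ G0, g = u * a ^ i
  closed : IsClosed (Γ : Set G)
  compact : CompactSpace (G ⧸ Γ)
  trans : ∀ g : G, ∃ u ∈ G0, ∃ γ ∈ Γ, g = u * γ
  g0_mem : g0 ∈ G0
  gam_mem : g0⁻¹ * a ∈ Γ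
  dense : ∀ x : G ⧸ Γ, Dense (Set.range fun n : ℤ => a ^ n • x)

/-- lower central series of `G` (`lcs G 0 = ⊤`, `lcs G 1 = [G,G]`) -/
abbrev lcs (G : Type) [Group G] (i : ℕ) : Subgroup G := (⊤ : Subgroup G).lowerCentralSeries i

section
variable {G : Type} [Group G] [TopologicalSpace G] [IsTopologicalGroup G]

/-- generators of the group `PP`:  `q ↦ (u a)^{q(e)} x (v a)^{-q(e)}` -/
def gpp (N : Nil G) (D : ℕ) (e : ℤ) (u x v : G) : RR D → G :=
  fun q => (u * N.a) ^ (ev D e q) * x * ((v * N.a) ^ (ev D e q))⁻¹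

/-- the connected group `𝒫` -/
def PP (N : Nil G) (D : ℕ) : Subgroup (RR D → G) :=
  Subgroup.closure {f | ∃ (e : ℤ) (u x v : G), u ∈ N.G0 ∧ x ∈ N.G0 ∧ v ∈ N.G0 ∧
    f = gpp N D e u x v}

/-- conjugation by `σ_e`:  `q ↦ a^{q(e)} f(tau e q) a^{-q(e)}` -/
def cj (N : Nil G) (D : ℕ) (e : ℤ) (f : RR D → G) : RR D → G :=
  fun q => N.a ^ (ev D e q) * f (tau D e q) * (N.a ^ (ev D e q))⁻¹

/-- the coordinatewise action on `(G ⧸ H)^R` -/
def act {H : Subgroup G} {D : ℕ} (f : RR D → G) (y : RR D → G ⧸ H) : RR D → G ⧸ H :=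
  fun q => f q • y q

/-- the shift `σ_e` on `(G ⧸ H)^R` -/
def sg (N : Nil G) {H : Subgroup G} (D : ℕ) (e : ℤ) (y : RR D → G ⧸ H) : RR D → G ⧸ H :=
  fun q => N.a ^ (ev D e q) • y (tau D e q)

/-- base point -/
def w0 (H : Subgroup G) (D : ℕ) : RR D → G ⧸ H := fun _ => ((1 : G) : G ⧸ H)

/-- `Ω_H`, the closure of `𝒫 w0` -/
def Om (N : Nil G) (H : Subgroup G) (D : ℕ) : Set (RR D → G ⧸ H) :=
  closure {y | ∃ f ∈ PP N D, y = act f (w0 H D)}

/-- `𝒫` acts minimally on `Ω_H` -/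
def MinP (N : Nil G) (H : Subgroup G) (D : ℕ) : Prop :=
  ∀ F : Set (RR D → G ⧸ H), F ⊆ Om N H D → IsClosed F → F.Nonempty →
    (∀ f ∈ PP N D, ∀ y ∈ F, act f y ∈ F) → F = Om N H D

/-- `⟨a, σ⟩` acts minimally on `Ω_H` -/
def MinT (N : Nil G) (H : Subgroup G) (D : ℕ) : Prop :=
  ∀ F : Set (RR D → G ⧸ H), F ⊆ Om N H D → IsClosed F → F.Nonempty →
    (∀ y ∈ F, (fun q => N.a • y q) ∈ F) → (∀ y ∈ F, (fun q => N.a⁻¹ • y q) ∈ F) →
    (∀ y ∈ F, sg N D 1 y ∈ F) → (∀ y ∈ F, sg N D (-1) y ∈ F) → F = Om N H D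

/-- the tower of closed subgroups `H_i = closure (γ_{i+1}(G) Γ)` -/
def HH (N : Nil G) (i : ℕ) : Subgroup G := (lcs G i ⊔ N.Γ).topologicalClosure

/-- algebraic properties of the function `lam : 𝒫 → Circle` coming from an invariant function -/
structure Lam (N : Nil G) (D : ℕ) (lam : (RR D → G) → Circle) : Prop where
  mul : ∀ f ∈ PP N D, ∀ g ∈ PP N D, lam (f * g) = lam f * lam g
  conjT : ∀ f ∈ PP N D, lam (fun q => N.a * f q * N.a⁻¹) = lam f
  conjS : ∀ e : ℤ, ∀ f ∈ PP N D, lam (cj N D e f) = lam f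
  fixw : ∀ f ∈ PP N D, (∀ q, f q ∈ N.Γ) → lam f = 1
  fixe : ∀ e : ℤ, ∀ γ ∈ N.Γ, γ ∈ N.G0 →
    lam (fun q => N.a ^ (ev D e q) * γ * (N.a ^ (ev D e q))⁻¹) = 1
  g0e : ∀ e : ℤ, lam (fun q => N.a ^ (ev D e q) * N.g0 * (N.a ^ (ev D e q))⁻¹) = 1
  base : lam (fun q => N.a ^ (ev D 1 q) * ((N.g0⁻¹ * N.a) ^ (ev D 1 q))⁻¹) = 1
  cont : ∀ (Z : Type) [TopologicalSpace Z] (F : Z → RR D → G), (∀ z, F z ∈ PP N D) →
    (∀ q, Continuous fun z => F z q) → Continuous fun z => lam (F z)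

/-- a continuous function on `Ω_H`, invariant under `a`, `σ`, and multiplied by constants
under `𝒫` -/
structure LamData (N : Nil G) (D : ℕ) (H : Subgroup G) (φ : (RR D → G ⧸ H) → Circle)
    (lam : (RR D → G) → Circle) : Prop where
  cont : ContinuousOn φ (Om N H D)
  invT : ∀ y ∈ Om N H D, φ (fun q => N.a • y q) = φ y
  invS : ∀ y ∈ Om N H D, φ (sg N D 1 y) = φ y
  eq : ∀ f ∈ PP N D, ∀ y ∈ Om N H D, φ (act f y) = lam f * φ y

end

/-! ## polynomial maps -/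
section
variable {R : Type} [AddCommGroup R] {G : Type} [Group G]

/-- discrete derivative -/
def dd (h : R) (f : R → G) : R → G := fun x => f (x + h) * (f x)⁻¹

/-- `IsPoly RF GF n l f`: polynomial map w.r.t. the filtrations `RF` (of `R`, degrees `≥ 1`) and
`GF`, shifted by `l`, tested on at most `n` derivatives -/
def IsPoly (RF : ℕ → AddSubgroup R) (GF : ℕ → Subgroup G) : ℕ → ℕ → (R → G) → Prop
  | 0, l, f => ∀ x, f x ∈ GF l
  | n + 1, l, f => IsPoly RF GF n l f ∧ ∀ j, 1 ≤ j → ∀ h ∈ RF j, IsPoly RF GF n (l + j) (dd h f)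

/-- prefiltration of a group -/
structure Filt (GF : ℕ → Subgroup G) : Prop where
  anti : ∀ i, GF (i + 1) ≤ GF i
  comm : ∀ i j, ∀ x ∈ GF i, ∀ y ∈ GF j, x * y * x⁻¹ * y⁻¹ ∈ GF (i + j)

/-- the scaled lower central filtration `GF i = γ_{⌈i/N⌉}` (`γ_0 = γ_1 = G`) -/
def lcsF (G : Type) [Group G] (N i : ℕ) : Subgroup G := lcs G ((i + N - 1) / N - 1)

/-- the ordinary filtration of `R`: `R_0 = R_1 = R`, `R_j = 0` for `j ≥ 2` -/
def RF1 (R : Type) [AddCommGroup R] (j : ℕ) : AddSubgroup R := if j ≤ 1 then ⊤ else ⊥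

/-- bounded degree polynomial maps into a nilpotent group -/
def BP (N : ℕ) (f : R → G) : Prop := ∀ n, IsPoly (RF1 R) (lcsF G N) n 0 f

/-- `PDeg d f`: all `(d+1)`-fold derivatives of `f : R → V` are trivial (`V` commutative) -/
def PDeg {V : Type} [CommGroup V] : ℕ → (R → V) → Prop
  | 0, f => ∀ h x, f (x + h) = f x
  | d + 1, f => ∀ h, PDeg d (fun x => f (x + h) * (f x)⁻¹)

/-- integer valued polynomial functions of degree `≤ d` -/
def ZDeg : ℕ → (R → ℤ) → Prop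
  | 0, f => ∀ h x, f (x + h) = f x
  | d + 1, f => ∀ h, ZDeg d (fun x => f (x + h) - f x)

end

/-- weighted filtration of `RR D`: polynomials of degree `≤ D + 1 - j` -/
def RFw (D : ℕ) (j : ℕ) : AddSubgroup (RR D) where
  carrier := {q | ∀ l : Fin D, D < (l : ℕ) + j → q l = 0}
  zero_mem' := by intro l _; rfl
  add_mem' := by
    intro a b ha hb l hl
    simp only [Pi.add_apply, ha l hl, hb l hl, add_zero]
  neg_mem' := by
    intro a ha l hl
    simp only [Pi.neg_apply, ha l hl, neg_zero]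

/-! ## abstract dynamics -/

/-- abstract setting of one step of the tower: a compact abelian group `C` and a group `P` acting
on `Y`, two homeomorphisms `T, S`, normalising the actions -/
structure Dyn (Y C P : Type) [TopologicalSpace Y] [CommGroup C] [TopologicalSpace C] [Group P]
    [TopologicalSpace P] where
  ac : C → Y → Y
  ac_one : ∀ y, ac 1 y = y
  ac_mul : ∀ c d y, ac (c * d) y = ac c (ac d y)
  ac_cont : Continuous fun p : C × Y => ac p.1 p.2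
  ap : P → Y → Y
  ap_one : ∀ y, ap 1 y = y
  ap_mul : ∀ g h y, ap (g * h) y = ap g (ap h y)
  ap_cont : Continuous fun p : P × Y => ap p.1 p.2
  comm : ∀ g c y, ap g (ac c y) = ac c (ap g y)
  T : Y ≃ₜ Y
  S : Y ≃ₜ Y
  θ : C → C
  θ' : C → C
  θ_mul : ∀ c d, θ (c * d) = θ c * θ d
  θ_θ' : ∀ c, θ (θ' c) = c
  θ'_θ : ∀ c, θ' (θ c) = c
  θ_cont : Continuous θ
  θ'_cont : Continuous θ'
  T_ac : ∀ c y, T (ac c y) = ac c (T y)
  S_ac : ∀ c y, S (ac c y) = ac (θ c) (S y)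
  t : P → P
  s : P → P
  t_cont : Continuous t
  s_cont : Continuous s
  t_eq : ∀ g y, ap (t g) y = T.symm (ap g (T y))
  s_eq : ∀ g y, ap (s g) y = S.symm (ap g (S y))
  w : Y

namespace Dyn
variable {Y C P : Type} [TopologicalSpace Y] [CommGroup C] [TopologicalSpace C] [Group P]
    [TopologicalSpace P] (E : Dyn Y C P)

/-- the closure of the `P`-orbit of the base point -/
def Om : Set Y := closure (Set.range fun g : P => E.ap g E.w)

/-- `P` acts minimally on `Om` -/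
def MinP : Prop := ∀ F ⊆ E.Om, IsClosed F → F.Nonempty → (∀ g, ∀ y ∈ F, E.ap g y ∈ F) → F = E.Om

/-- invariance under the group generated by `T, S` -/
def InvTS (F : Set Y) : Prop := ∀ y ∈ F, E.T y ∈ F ∧ E.T.symm y ∈ F ∧ E.S y ∈ F ∧ E.S.symm y ∈ F

/-- `⟨T,S⟩` acts minimally on `Om` -/
def MinT : Prop := ∀ F ⊆ E.Om, IsClosed F → F.Nonempty → E.InvTS F → F = E.Om

/-- the stabiliser of `Om` in `C` -/
def KK : Set C := {c | ∀ y, y ∈ E.Om ↔ E.ac c y ∈ E.Om}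

/-- `⟨T,S⟩` acts minimally modulo `L` -/
def MinMod (L : Subgroup C) : Prop := ∀ F ⊆ E.Om, IsClosed F → F.Nonempty → E.InvTS F →
  (∀ c ∈ L, ∀ y ∈ F, E.ac c y ∈ F) → F = E.Om

/-- an obstruction: a nontrivial character of `L` and an equivariant invariant function -/
def Obst (L : Subgroup C) (χ : C → Circle) (φ : Y → Circle) : Prop :=
  (∀ c ∈ L, ∀ d ∈ L, χ (c * d) = χ c * χ d) ∧ (∃ c ∈ L, χ c ≠ 1) ∧ ContinuousOn φ E.Om ∧
    (∀ c ∈ L, ∀ y ∈ E.Om, φ (E.ac c y) = χ c * φ y) ∧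
    (∀ y ∈ E.Om, φ (E.T y) = φ y ∧ φ (E.S y) = φ y)

/-- the chain `𝒬` of iterated commutators with `T, S` -/
def QQ : ℕ → Subgroup P
  | 0 => ⊤
  | n + 1 => Subgroup.closure ({x | ∃ g ∈ QQ n, x = E.t g * g⁻¹} ∪ {x | ∃ g ∈ QQ n, x = E.s g * g⁻¹})

end Dyn

end Pool.Agent.W295.PR
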