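import Pool.Agent.W295.PR.Defs

/-!
# Project PR (MP_35c333_an): statements of the pieces.  (helper295)
-/

set_option autoImplicit false

open Topology

namespace Pool.Agent.W295.PR

/-! ## index identities -/

/-- identities for `ev`, `tau`, `rho`, `RFw` -/
def S_EV : Prop := ∀ (D : ℕ) (e f : ℤ) (q q' : RR D),
  ev D f (tau D e q) = ev D (e + f) q - ev D e q ∧
  tau D e (tau D f q) = tau D (e + f) q ∧
  tau D 0 q = q ∧
  ev D e (q + q') = ev D e q + ev D e q' ∧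
  tau D e (q + q') = tau D e q + tau D e q' ∧
  rho D e (q + q') = rho D e q + rho D e q' ∧
  ev D e (rho D f q) = ev D (f * e) q ∧
  ev D 0 q = 0

/-- the weighted filtration -/
def S_RFW : Prop := ∀ (D : ℕ),
  RFw D 1 = ⊤ ∧ RFw D (D + 1) = ⊥ ∧ (∀ j, RFw D (j + 1) ≤ RFw D j) ∧
  (∀ (e : ℤ) (j : ℕ) (q : RR D), 1 ≤ j → q ∈ RFw D j → tau D e q - q ∈ RFw D (j + 1))

/-! ## lower central series and polynomial maps -/

def S_LCS : Prop := ∀ (G : Type) [Group G] (m n : ℕ), ∀ x ∈ lcs G m, ∀ y ∈ lcs G n,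
  x * y * x⁻¹ * y⁻¹ ∈ lcs G (m + n + 1)

def S_FILT : Prop := ∀ (G : Type) [Group G] (N : ℕ), 1 ≤ N → Filt (lcsF G N)

/-- Lazard–Leibman: polynomial maps form a group -/
def S_PG : Prop := ∀ (R : Type) [AddCommGroup R] (G : Type) [Group G] (RF : ℕ → AddSubgroup R)
  (GF : ℕ → Subgroup G), Filt GF → ∀ n : ℕ,
  (∀ l f, IsPoly RF GF n (l + 1) f → IsPoly RF GF n l f) ∧
  (∀ l f g, IsPoly RF GF n l f → IsPoly RF GF n l g → IsPoly RF GF n l (f * g)) ∧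
  (∀ l f, IsPoly RF GF n l f → IsPoly RF GF n l f⁻¹) ∧
  (∀ l m f g, IsPoly RF GF n l f → IsPoly RF GF n m g →
    IsPoly RF GF n (l + m) (f * g * f⁻¹ * g⁻¹)) ∧
  (∀ l f (c : R), IsPoly RF GF n l f → IsPoly RF GF n l (fun x => f (x + c)))

/-- composition with additive maps -/
def S_COMP : Prop := ∀ (R S : Type) [AddCommGroup R] [AddCommGroup S] (G : Type) [Group G]
  (RF : ℕ → AddSubgroup R) (SF : ℕ → AddSubgroup S) (GF : ℕ → Subgroup G) (ψ : S → R),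
  (∀ x y, ψ (x + y) = ψ x + ψ y) → (∀ j, 1 ≤ j → ∀ h ∈ SF j, ψ h ∈ RF j) →
  ∀ n l f, IsPoly RF GF n l f → IsPoly SF GF n l (fun x => f (ψ x))

/-- composition with a unipotent map raises the shift -/
def S_RAISE : Prop := ∀ (R : Type) [AddCommGroup R] (G : Type) [Group G]
  (RF : ℕ → AddSubgroup R) (GF : ℕ → Subgroup G), Filt GF → RF 1 = ⊤ →
  (∀ j, RF (j + 1) ≤ RF j) → ∀ ψ : R → R, (∀ x y, ψ (x + y) = ψ x + ψ y) →
  (∀ j, 1 ≤ j → ∀ h ∈ RF j, ψ h - h ∈ RF (j + 1)) →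
  ∀ n l f, IsPoly RF GF (n + 1) l f → IsPoly RF GF n (l + 1) (fun x => f (ψ x) * (f x)⁻¹)

/-- powers with linear exponents -/
def S_POW : Prop := ∀ (R : Type) [AddCommGroup R] (G : Type) [Group G]
  (RF : ℕ → AddSubgroup R) (GF : ℕ → Subgroup G) (b : G) (m : R → ℤ) (l : ℕ),
  (∀ x y, m (x + y) = m x + m y) → b ∈ GF l →
  (∀ j, 1 ≤ j → (∀ h ∈ RF j, m h = 0) ∨ b ∈ GF (l + j)) →
  ∀ n, IsPoly RF GF n l (fun x => b ^ (m x))

/-- powers with polynomial exponents -/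
def S_ZPOW : Prop := ∀ (R : Type) [AddCommGroup R] (G : Type) [Group G] (N d : ℕ) (m : R → ℤ)
  (b : G), 1 ≤ N → ZDeg d m → ∀ l, d + l ≤ N → ∀ n,
  IsPoly (RF1 R) (lcsF G N) n l (fun x => b ^ (m x))

/-- bounded degree polynomial maps: closure properties -/
def S_BP : Prop := ∀ (R : Type) [AddCommGroup R] (G : Type) [Group G] (N : ℕ), 1 ≤ N →
  (∀ f g : R → G, BP N f → BP N g → BP N (f * g)) ∧
  (∀ f : R → G, BP N f → BP N f⁻¹) ∧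
  (∀ N', N ≤ N' → ∀ f : R → G, BP N f → BP N' f) ∧
  (∀ (m : R → ℤ) (b : G) (d : ℕ), ZDeg d m → d ≤ N → BP N (fun x => b ^ (m x))) ∧
  (∀ c : G, BP N (fun _ : R => c))

/-- integer interpolation of polynomial maps into commutative groups -/
def S_NEWT : Prop := ∀ D d : ℕ, ∃ (B : Finset (RR D)) (m : RR D → RR D → ℤ) (d' : ℕ) (N0 : ℕ),
  1 ≤ N0 ∧ (∀ β, ZDeg d' (m β)) ∧
  (∀ β, ∃ P : MvPolynomial (Fin D) ℤ, ∀ q, (N0 : ℤ) * m β q = MvPolynomial.eval q P) ∧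
  ∀ (V : Type) [CommGroup V] (f : RR D → V), PDeg d f → ∀ q, f q = ∏ β ∈ B, f β ^ (m β q)

/-- Taylor expansion modulo `γ_{i+1}` with universal words -/
def S_T1 : Prop := ∀ (D : ℕ) (G : Type) [Group G] (N i : ℕ), 1 ≤ N →
  ∃ (r : ℕ) (m : Fin r → RR D → ℤ) (w : Fin r → FreeGroup (RR D)) (N' : ℕ),
    (∀ j, ZDeg N' (m j)) ∧ ∀ f : RR D → G, BP N f → ∀ q,
      f q * ((List.ofFn fun j => (FreeGroup.lift f (w j)) ^ (m j q)).prod)⁻¹ ∈ lcs G i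

/-- words are continuous modulo a normal subgroup -/
def S_WORD : Prop := ∀ (R : Type) (G : Type) [Group G] [TopologicalSpace G] [IsTopologicalGroup G]
  (K : Subgroup G), K.Normal → ∀ (w : FreeGroup R), ∀ V ∈ 𝓝 (1 : G),
  ∃ W ∈ 𝓝 (1 : G), ∃ E : Finset R, ∀ f : R → G, (∀ q ∈ E, ∃ v ∈ W, ∃ z ∈ K, f q = v * z) →
    ∃ v ∈ V, ∃ z ∈ K, FreeGroup.lift f w = v * z

/-- the lifting lemma -/
def S_L : Prop := ∀ (D : ℕ) (G : Type) [Group G] [TopologicalSpace G] [IsTopologicalGroup G]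
  (H : Subgroup G) (N i : ℕ), 1 ≤ N → ∃ N', 1 ≤ N' ∧ ∀ V ∈ 𝓝 (1 : G), ∀ F : Finset (RR D),
  ∃ W ∈ 𝓝 (1 : G), ∃ E : Finset (RR D), ∀ g : RR D → G, BP N g →
    (∀ q ∈ E, ∃ w ∈ W, ∃ h ∈ H, ∃ z ∈ lcs G i, g q = w * h * z) →
    ∃ h : RR D → G, BP N' h ∧ (∀ q, h q ∈ H) ∧
      ∀ q ∈ F, ∃ v ∈ V, ∃ z ∈ lcs G i, g q * (h q)⁻¹ = v * z

/-- one step of the lifting lemma -/
def S_Lstep : Prop := ∀ (D : ℕ) (G : Type) [Group G] [TopologicalSpace G] [IsTopologicalGroup G]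
  (H : Subgroup G) (N i : ℕ), 1 ≤ N →
  (∃ N', 1 ≤ N' ∧ ∀ V ∈ 𝓝 (1 : G), ∀ F : Finset (RR D),
  ∃ W ∈ 𝓝 (1 : G), ∃ E : Finset (RR D), ∀ g : RR D → G, BP N g →
    (∀ q ∈ E, ∃ w ∈ W, ∃ h ∈ H, ∃ z ∈ lcs G i, g q = w * h * z) →
    ∃ h : RR D → G, BP N' h ∧ (∀ q, h q ∈ H) ∧
      ∀ q ∈ F, ∃ v ∈ V, ∃ z ∈ lcs G i, g q * (h q)⁻¹ = v * z) →
  (∃ N', 1 ≤ N' ∧ ∀ V ∈ 𝓝 (1 : G), ∀ F : Finset (RR D),
  ∃ W ∈ 𝓝 (1 : G), ∃ E : Finset (RR D), ∀ g : RR D → G, BP N g →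
    (∀ q ∈ E, ∃ w ∈ W, ∃ h ∈ H, ∃ z ∈ lcs G (i + 1), g q = w * h * z) →
    ∃ h : RR D → G, BP N' h ∧ (∀ q, h q ∈ H) ∧
      ∀ q ∈ F, ∃ v ∈ V, ∃ z ∈ lcs G (i + 1), g q * (h q)⁻¹ = v * z)

/-- bounded degree maps have bounded degree images in commutative groups -/
def S_PDEG : Prop := ∀ (R : Type) [AddCommGroup R] (G : Type) [Group G] (N : ℕ), 1 ≤ N →
  Group.IsNilpotent G → ∃ d, ∀ f : R → G, BP N f → ∀ (H : Subgroup G) (C : Type) [CommGroup C]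
    (pr : H → C), (∀ x y, pr (x * y) = pr x * pr y) → ∀ hf : ∀ x, f x ∈ H,
    PDeg d (fun x => pr ⟨f x, hf x⟩)

/-- unipotency of composition with `tau` on polynomial maps into commutative groups -/
def S_UNIP : Prop := ∀ D d : ℕ, ∃ J : ℕ, ∀ (C : Type) [CommGroup C] (c : RR D → C), PDeg d c →
  (fun f : RR D → C => fun q => f (tau D 1 q) * (f q)⁻¹)^[J] c = 1

/-! ## the group `PP` -/

def S_PPn : Prop := ∀ (G : Type) [Group G] [TopologicalSpace G] [IsTopologicalGroup G] (N : Nil G)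
  (D : ℕ),
  (∀ e, ∀ f ∈ PP N D, cj N D e f ∈ PP N D) ∧
  (∀ f ∈ PP N D, (fun q => N.a * f q * N.a⁻¹) ∈ PP N D) ∧
  (∀ f ∈ PP N D, (fun q => N.a⁻¹ * f q * N.a) ∈ PP N D) ∧
  (∀ r, ∀ f ∈ PP N D, (fun q => f (rho D r q)) ∈ PP N D) ∧
  (∀ f ∈ PP N D, ∀ q, f q ∈ N.G0) ∧
  (∀ e f g, cj N D e (f * g) = cj N D e f * cj N D e g) ∧
  (∀ e f g, cj N D e (cj N D f g) = cj N D (e + f) g)

def S_PPc : Prop := ∀ (G : Type) [Group G] [TopologicalSpace G] [IsTopologicalGroup G] (N : Nil G)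
  (D : ℕ), IsPreconnected (PP N D : Set (RR D → G))

def S_PPbp : Prop := ∀ (G : Type) [Group G] [TopologicalSpace G] [IsTopologicalGroup G] (N : Nil G)
  (D : ℕ), ∀ f ∈ PP N D, BP 1 f

/-- the chain of iterated commutators with `a` and `σ` inside `PP` -/
def qch {G : Type} [Group G] [TopologicalSpace G] [IsTopologicalGroup G] (N : Nil G) (D : ℕ) :
    ℕ → Subgroup (RR D → G)
  | 0 => PP N D
  | n + 1 => Subgroup.closure
      ({x | ∃ g ∈ qch N D n, x = (fun q => N.a⁻¹ * g q * N.a) * g⁻¹} ∪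
       {x | ∃ g ∈ qch N D n, x = cj N D (-1) g * g⁻¹})

def S_QCH : Prop := ∀ (G : Type) [Group G] [TopologicalSpace G] [IsTopologicalGroup G] (N : Nil G)
  (D : ℕ), ∃ J, qch N D J = ⊥

/-! ## topology of the tower -/

def S_T2 : Prop := ∀ (G : Type) [Group G] [TopologicalSpace G] [IsTopologicalGroup G]
  (H : Subgroup G), IsClosed (H : Set G) → T2Space (G ⧸ H)

/-- the principal bundle `G ⧸ H → G ⧸ H'` with compact abelian group `C = H' / H` acting from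
the right -/
structure Bun {G : Type} [Group G] [TopologicalSpace G] [IsTopologicalGroup G]
    (H H' : Subgroup G) (C : Type) [CommGroup C] [TopologicalSpace C] where
  pr : H' → C
  ra : C → G ⧸ H → G ⧸ H
  pr_mul : ∀ x y, pr (x * y) = pr x * pr y
  pr_cont : Continuous pr
  pr_surj : Function.Surjective pr
  pr_ker : ∀ x : H', pr x = 1 ↔ (x : G) ∈ H
  ra_mk : ∀ (x : H') (g : G), ra (pr x) (g : G ⧸ H) = ((g * (x : G) : G) : G ⧸ H)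
  ra_cont : Continuous fun p : C × (G ⧸ H) => ra p.1 p.2

def S_BUN : Prop := ∀ (G : Type) [Group G] [TopologicalSpace G] [IsTopologicalGroup G]
  (H H' : Subgroup G), IsClosed (H : Set G) → IsClosed (H' : Set G) → H ≤ H' →
  (∀ x ∈ H', ∀ y ∈ H', x * y * x⁻¹ * y⁻¹ ∈ H) → CompactSpace (G ⧸ H) →
  ∃ (C : Type) (_ : CommGroup C) (_ : TopologicalSpace C) (_ : IsTopologicalGroup C)
    (_ : CompactSpace C) (_ : T2Space C), Nonempty (Bun H H' C)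

def S_CHN : Prop := ∀ (G : Type) [Group G] [TopologicalSpace G] [IsTopologicalGroup G] (N : Nil G),
  HH N 0 = ⊤ ∧ (∀ i, IsClosed (HH N i : Set G)) ∧ (∀ i, N.Γ ≤ HH N i) ∧
  (∀ i, HH N (i + 1) ≤ HH N i) ∧ (∃ s, HH N s = N.Γ) ∧
  (∀ i, ∀ x ∈ HH N i, ∀ y ∈ HH N i, x * y * x⁻¹ * y⁻¹ ∈ HH N (i + 1)) ∧
  (∀ i, CompactSpace (G ⧸ HH N i))

/-- eigenfunction lemma: minimality of `a` kills invariant characters -/
def S_EL : Prop := ∀ (G : Type) [Group G] [TopologicalSpace G] [IsTopologicalGroup G] (N : Nil G)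
  (χ : G → Circle), (∀ x ∈ N.G0, ∀ y ∈ N.G0, χ (x * y) = χ x * χ y) →
  ContinuousOn χ (N.G0 : Set G) → (∀ x ∈ N.G0, χ (N.a * x * N.a⁻¹) = χ x) →
  (∀ γ ∈ N.Γ, γ ∈ N.G0 → χ γ = 1) → χ N.g0 = 1 → ∀ x ∈ N.G0, χ x = 1

/-- characters of compact abelian groups separate closed subgroups -/
def S_CH : Prop := ∀ (K : Type) [CommGroup K] [TopologicalSpace K] [IsTopologicalGroup K]
  [CompactSpace K] [T2Space K] (L L0 : Subgroup K), IsClosed (L : Set K) → IsClosed (L0 : Set K) →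
  L0 ≤ L → L0 ≠ L → ∃ χ : K → Circle, ContinuousOn χ (L : Set K) ∧
    (∀ c ∈ L, ∀ d ∈ L, χ (c * d) = χ c * χ d) ∧ (∀ c ∈ L0, χ c = 1) ∧ (∃ c ∈ L, χ c ≠ 1)

/-! ## triviality of `lam` -/

def S_LT0 : Prop := ∀ (G : Type) [Group G] [TopologicalSpace G] [IsTopologicalGroup G] (N : Nil G)
  (D : ℕ) (H : Subgroup G), IsClosed (H : Set G) → N.Γ ≤ H →
  ∀ (φ : (RR D → G ⧸ H) → Circle) (lam : (RR D → G) → Circle),
  LamData N D H φ lam → Lam N D lam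

def S_LT1 : Prop := ∀ (G : Type) [Group G] [TopologicalSpace G] [IsTopologicalGroup G] (N : Nil G)
  (D : ℕ) (lam : (RR D → G) → Circle), Lam N D lam →
  ∀ e, ∀ u ∈ N.G0, ∀ x ∈ N.G0, lam (gpp N D e u x u) = 1

def S_LT2 : Prop := ∀ (G : Type) [Group G] [TopologicalSpace G] [IsTopologicalGroup G] (N : Nil G)
  (D : ℕ) (lam : (RR D → G) → Circle), Lam N D lam →
  ∀ e : ℤ, ∀ u ∈ N.G0, ∀ x ∈ N.G0, ∀ v ∈ N.G0,
    lam (gpp N D e u x v) = lam (gpp N D 1 u 1 v) ^ e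

def S_LT3 : Prop := ∀ (G : Type) [Group G] [TopologicalSpace G] [IsTopologicalGroup G] (N : Nil G)
  (D : ℕ) (lam : (RR D → G) → Circle), Lam N D lam →
  ∀ r : ℤ, ∀ f ∈ PP N D, lam (fun q => f (rho D r q)) = lam f ^ r

/-- abstract torsion lemma -/
def S_TOR : Prop := ∀ D d : ℕ, ∃ M : ℕ, 1 ≤ M ∧ ∀ (V W : Type) [CommGroup V] [CommGroup W]
  (𝒱 : Subgroup (RR D → V)) (V0 : Subgroup V) (μ : (RR D → V) → W),
  (∀ f ∈ 𝒱, ∀ g ∈ 𝒱, μ (f * g) = μ f * μ g) → (∀ f ∈ 𝒱, PDeg d f) → (∀ f ∈ 𝒱, ∀ q, f q ∈ V0) →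
  (∀ f ∈ 𝒱, ∀ r : ℤ, (fun q => f (rho D r q)) ∈ 𝒱 ∧ μ (fun q => f (rho D r q)) = μ f ^ r) →
  (∀ v ∈ V0, (fun q => v ^ (ev D 1 q)) ∈ 𝒱 ∧ μ (fun q => v ^ (ev D 1 q)) = 1) →
  ∀ f ∈ 𝒱, μ f ^ M = 1

def S_LT5 : Prop := ∀ (G : Type) [Group G] [TopologicalSpace G] [IsTopologicalGroup G] (N : Nil G)
  (D : ℕ) (lam : (RR D → G) → Circle), Lam N D lam → ∀ i, 1 ≤ i →
  (∃ M : ℕ, 1 ≤ M ∧ ∀ f ∈ PP N D, (∀ q, f q ∈ lcs G (i + 1)) → lam f ^ M = 1) →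
  ∃ M : ℕ, 1 ≤ M ∧ ∀ f ∈ PP N D, (∀ q, f q ∈ lcs G i) → lam f ^ M = 1

def S_LT6 : Prop := ∀ (G : Type) [Group G] [TopologicalSpace G] [IsTopologicalGroup G] (N : Nil G)
  (D : ℕ) (lam : (RR D → G) → Circle), Lam N D lam →
  (∃ M : ℕ, 1 ≤ M ∧ ∀ f ∈ PP N D, (∀ q, f q ∈ lcs G 1) → lam f ^ M = 1) →
  ∀ f ∈ PP N D, lam f = 1

/-! ## polynomiality of the fibre group -/

def S_PK : Prop := ∀ (G : Type) [Group G] [TopologicalSpace G] [IsTopologicalGroup G] (N : Nil G)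
  (D : ℕ) (H H' : Subgroup G) (C : Type) [CommGroup C] [TopologicalSpace C] [IsTopologicalGroup C]
  [CompactSpace C] [T2Space C] (B : Bun H H' C), IsClosed (H : Set G) → IsClosed (H' : Set G) →
  N.Γ ≤ H → H ≤ H' → ∃ d, ∀ c : RR D → C,
    (fun q => B.ra (c q) ((1 : G) : G ⧸ H)) ∈ Om N H D → PDeg d c

/-! ## abstract dynamics -/

def S_MinP : Prop := ∀ (Y C P : Type) [TopologicalSpace Y] [CommGroup C] [TopologicalSpace C]
  [Group P] [TopologicalSpace P] [CompactSpace Y] [T2Space Y] [IsTopologicalGroup C]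
  [CompactSpace C] [T2Space C] (E : Dyn Y C P) (Y' : Type) [TopologicalSpace Y'] [T2Space Y']
  (ap' : P → Y' → Y') (π : Y → Y'), Continuous π → (∀ g y, π (E.ap g y) = ap' g (π y)) →
  (∀ y y', π y = π y' → ∃ c, y' = E.ac c y) →
  (∀ F ⊆ closure (Set.range fun g : P => ap' g (π E.w)), IsClosed F → F.Nonempty →
    (∀ g, ∀ y ∈ F, ap' g y ∈ F) → F = closure (Set.range fun g : P => ap' g (π E.w))) →
  E.MinP

def S_Fib : Prop := ∀ (Y C P : Type) [TopologicalSpace Y] [CommGroup C] [TopologicalSpace C]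
  [Group P] [TopologicalSpace P] [CompactSpace Y] [T2Space Y] [IsTopologicalGroup C]
  [CompactSpace C] [T2Space C] (E : Dyn Y C P), E.MinP →
  ∀ y ∈ E.Om, ∀ c, E.ac c y ∈ E.Om → c ∈ E.KK

def S_KK : Prop := ∀ (Y C P : Type) [TopologicalSpace Y] [CommGroup C] [TopologicalSpace C]
  [Group P] [TopologicalSpace P] [CompactSpace Y] [T2Space Y] [IsTopologicalGroup C]
  [CompactSpace C] [T2Space C] (E : Dyn Y C P), E.InvTS E.Om →
  ∃ K : Subgroup C, (K : Set C) = E.KK ∧ IsClosed (K : Set C) ∧ (∀ c ∈ K, E.θ c ∈ K) ∧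
    (∀ c ∈ K, E.θ' c ∈ K)

def S_Base : Prop := ∀ (Y C P : Type) [TopologicalSpace Y] [CommGroup C] [TopologicalSpace C]
  [Group P] [TopologicalSpace P] [CompactSpace Y] [T2Space Y] [IsTopologicalGroup C]
  [CompactSpace C] [T2Space C] (E : Dyn Y C P) (Y' : Type) [TopologicalSpace Y'] [T2Space Y']
  (ap' : P → Y' → Y') (T' T'' S' S'' : Y' → Y') (π : Y → Y'), Continuous π →
  (∀ g y, π (E.ap g y) = ap' g (π y)) → (∀ y, π (E.T y) = T' (π y)) →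
  (∀ y, π (E.T.symm y) = T'' (π y)) → (∀ y, π (E.S y) = S' (π y)) →
  (∀ y, π (E.S.symm y) = S'' (π y)) →
  (∀ y y', π y = π y' → ∃ c, y' = E.ac c y) →
  (∀ F ⊆ closure (Set.range fun g : P => ap' g (π E.w)), IsClosed F → F.Nonempty →
    (∀ y ∈ F, T' y ∈ F ∧ T'' y ∈ F ∧ S' y ∈ F ∧ S'' y ∈ F) →
      F = closure (Set.range fun g : P => ap' g (π E.w))) →
  E.MinP → ∀ K : Subgroup C, (K : Set C) = E.KK → E.MinMod K

def S_Step : Prop := ∀ (Y C P : Type) [TopologicalSpace Y] [CommGroup C] [TopologicalSpace C]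
  [Group P] [TopologicalSpace P] [CompactSpace Y] [T2Space Y] [IsTopologicalGroup C]
  [CompactSpace C] [T2Space C] (E : Dyn Y C P), E.InvTS E.Om →
  ∀ L0 L1 : Subgroup C, IsClosed (L0 : Set C) → IsClosed (L1 : Set C) → L0 ≤ L1 →
  (L1 : Set C) ⊆ E.KK → (∀ c ∈ L1, E.θ c * c⁻¹ ∈ L0) → (∀ c ∈ L1, E.θ' c * c⁻¹ ∈ L0) →
  E.MinMod L1 → (∀ χ φ, ¬ E.Obst L1 χ φ) → E.MinMod L0

def S_Parry : Prop := ∀ (Y C P : Type) [TopologicalSpace Y] [CommGroup C] [TopologicalSpace C]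
  [Group P] [TopologicalSpace P] [IsTopologicalGroup P] [CompactSpace Y] [T2Space Y]
  [IsTopologicalGroup C] [CompactSpace C] [T2Space C] (E : Dyn Y C P), E.InvTS E.Om →
  ∀ L1 : Subgroup C, (L1 : Set C) ⊆ E.KK → E.MinMod L1 → ∀ χ φ, E.Obst L1 χ φ →
  (∀ n, IsPreconnected (E.QQ n : Set P)) → (∃ J, E.QQ J = ⊥) →
  ∃ lam : P → Circle, ∀ g, ∀ y ∈ E.Om, φ (E.ap g y) = lam g * φ y

def S_QQc : Prop := ∀ (Y C P : Type) [TopologicalSpace Y] [CommGroup C] [TopologicalSpace C]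
  [Group P] [TopologicalSpace P] [IsTopologicalGroup P] (E : Dyn Y C P),
  IsPreconnected (Set.univ : Set P) → (E.t 1 = 1) → (E.s 1 = 1) →
  ∀ n, IsPreconnected (E.QQ n : Set P)

/-! ## the concrete system -/

def S_CD : Prop := ∀ (G : Type) [Group G] [TopologicalSpace G] [IsTopologicalGroup G] (N : Nil G)
  (D : ℕ) (H H' : Subgroup G) (C : Type) [CommGroup C] [TopologicalSpace C] [IsTopologicalGroup C]
  (B : Bun H H' C), ∃ E : Dyn (RR D → G ⧸ H) (RR D → C) (PP N D),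
    (∀ g y, E.ap g y = act (g : RR D → G) y) ∧
    (∀ c y, E.ac c y = fun q => B.ra (c q) (y q)) ∧
    (∀ y, E.T y = fun q => N.a • y q) ∧ (∀ y, E.T.symm y = fun q => N.a⁻¹ • y q) ∧
    (∀ y, E.S y = sg N D 1 y) ∧ (∀ y, E.S.symm y = sg N D (-1) y) ∧
    (∀ c, E.θ c = fun q => c (tau D 1 q)) ∧ (∀ c, E.θ' c = fun q => c (tau D (-1) q)) ∧
    (∀ g, (E.t g : RR D → G) = fun q => N.a⁻¹ * (g : RR D → G) q * N.a) ∧
    (∀ g, (E.s g : RR D → G) = cj N D (-1) (g : RR D → G)) ∧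
    E.w = w0 H D

/-! ## the end -/

/-- `⟨a, σ^k⟩` acts minimally -/
def S_FIN1 : Prop := ∀ (G : Type) [Group G] [TopologicalSpace G] [IsTopologicalGroup G] (N : Nil G)
  (D : ℕ), MinT N N.Γ D → ∀ k : ℕ, 0 < k → ∀ F : Set (RR D → G ⧸ N.Γ), F ⊆ Om N N.Γ D →
    IsClosed F → F.Nonempty →
    (∀ y ∈ F, (fun q => N.a • y q) ∈ F) → (∀ y ∈ F, (fun q => N.a⁻¹ • y q) ∈ F) →
    (∀ y ∈ F, sg N D (k : ℤ) y ∈ F) → (∀ y ∈ F, sg N D (-(k : ℤ)) y ∈ F) → F = Om N N.Γ D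

/-- conclusion for `G = G0 ⟨a⟩` -/
def S_MAIN : Prop := ∀ (G : Type) [Group G] [TopologicalSpace G] [IsTopologicalGroup G] (N : Nil G)
  (D k j : ℕ), 0 < k → ∀ (F : Finset (RR D)) (U : Set (G ⧸ N.Γ)), IsOpen U → U.Nonempty →
    ∃ n : ℕ, 0 < n ∧ ∃ x ∈ U, ∀ q ∈ F, N.a ^ (ev D ((k : ℤ) * (n : ℤ) + (j : ℤ)) q) • x ∈ U

def S_FIN2 : Prop := (∀ (G : Type) [Group G] [TopologicalSpace G] [IsTopologicalGroup G]
  (N : Nil G) (D : ℕ), MinT N N.Γ D) → S_MAIN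

/-- version for general nilpotent locally connected groups and polynomials -/
def S_GEN : Prop := ∀ (G : Type) [Group G] [TopologicalSpace G] [IsTopologicalGroup G] [T2Space G]
  [LocallyConnectedSpace G] [Group.IsNilpotent G] (Γ : Subgroup G), IsClosed (Γ : Set G) →
  CompactSpace (G ⧸ Γ) → ∀ g : G, (∀ m : ℕ, 0 < m → ∀ x : G ⧸ Γ,
      Dense (Set.range (fun n : ℤ => (g ^ m) ^ n • x))) →
  ∀ (d : ℕ) (p : Fin d → Polynomial ℤ), (∀ i, (p i).eval 0 = 0) →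
  ∀ k : ℕ, 0 < k → ∀ j : ℕ, j < k →
  ∀ U : Set (G ⧸ Γ), IsOpen U → U.Nonempty →
  ∃ n : ℕ, 0 < n ∧ ∃ x ∈ U, ∀ i, g ^ ((p i).eval ((k : ℤ) * (n : ℤ) + (j : ℤ))) • x ∈ U

/-- total minimality makes the identity component transitive -/
def S_TRA1 : Prop := ∀ (G : Type) [Group G] [TopologicalSpace G] [IsTopologicalGroup G]
  [LocallyConnectedSpace G] (Γ : Subgroup G), CompactSpace (G ⧸ Γ) →
  ∀ g : G, (∀ m : ℕ, 0 < m → ∀ x : G ⧸ Γ, Dense (Set.range (fun n : ℤ => (g ^ m) ^ n • x))) →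
  ∀ x : G, ∃ u ∈ connectedComponent (1 : G), ∃ γ ∈ Γ, x = u * γ

/-- reduction to `G = G0 ⟨g⟩` (conclusion for finite sets of index polynomials) -/
def S_TRA2 : Prop := S_MAIN → S_TRA1 → ∀ (G : Type) [Group G] [TopologicalSpace G]
  [IsTopologicalGroup G] [T2Space G] [LocallyConnectedSpace G] [Group.IsNilpotent G]
  (Γ : Subgroup G), IsClosed (Γ : Set G) → CompactSpace (G ⧸ Γ) → ∀ g : G,
  (∀ m : ℕ, 0 < m → ∀ x : G ⧸ Γ, Dense (Set.range (fun n : ℤ => (g ^ m) ^ n • x))) →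
  ∀ (D k j : ℕ), 0 < k → ∀ (F : Finset (RR D)) (U : Set (G ⧸ Γ)), IsOpen U → U.Nonempty →
    ∃ n : ℕ, 0 < n ∧ ∃ x ∈ U, ∀ q ∈ F, g ^ (ev D ((k : ℤ) * (n : ℤ) + (j : ℤ)) q) • x ∈ U

/-- integer polynomials vanishing at `0` as index polynomials -/
def S_TRA3 : Prop := ∀ (d : ℕ) (p : Fin d → Polynomial ℤ), (∀ i, (p i).eval 0 = 0) →
  ∃ (D : ℕ) (q : Fin d → RR D), ∀ i z, (p i).eval z = ev D z (q i)

/-- the frozen statement S04319 from the general version -/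
def S_TRB : Prop := S_GEN → ∀ (E : Type) [NormedAddCommGroup E] [NormedSpace ℝ E]
    [FiniteDimensional ℝ E]
    (G : Type) [Group G] [TopologicalSpace G] [ChartedSpace E G]
    [LieGroup (modelWithCornersSelf ℝ E) ((⊤ : ℕ∞) : WithTop ℕ∞) G] [Group.IsNilpotent G]
    (Γ : Subgroup G), DiscreteTopology Γ → CompactSpace (G ⧸ Γ) →
    ∀ g : G, (∀ m : ℕ, 0 < m → ∀ x : G ⧸ Γ,
        Dense (Set.range (fun n : ℤ => (g ^ m) ^ n • x))) →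
    ∀ (d : ℕ) (p : Fin d → Polynomial ℤ), (∀ i, (p i).eval 0 = 0) →
    ∀ k : ℕ, 0 < k → ∀ j : ℕ, j < k →
    ∀ U : Set (G ⧸ Γ), IsOpen U → U.Nonempty →
    ∃ n : ℕ, 0 < n ∧ ∃ x ∈ U, ∀ i, g ^ ((p i).eval ((k : ℤ) * (n : ℤ) + (j : ℤ))) • x ∈ U

end Pool.Agent.W295.PR
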